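import Pool.Agent.W823.QT.Stm

/-!
# Project QT (MP_26aa9e_pr), part MEAS: local functions are measurable
-/

set_option autoImplicit false

namespace Pool.Agent.W315.QTMEAS

open MeasureTheory Pool.Agent.W823.QT
open scoped ENNReal

theorem main : MEAS_T := by
  intro d n f hf
  let ext : (Fin n → Fin d → ℤ) → (ℕ → Fin d → ℤ) := fun b i => if h : i < n then b ⟨i, h⟩ else 0
  let res : (ℕ → Fin d → ℤ) → (Fin n → Fin d → ℤ) := fun a i => a i
  have hres : Measurable res := by
    apply measurable_pi_lambda
    intro i
    exact measurable_pi_apply (i : ℕ)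
  have hext : Measurable (fun b => f (ext b)) := measurable_of_countable _
  have h : f = (fun b => f (ext b)) ∘ res := by
    funext a
    apply hf
    intro i hi
    simp [ext, res, hi]
  rw [h]
  exact hext.comp hres

end Pool.Agent.W315.QTMEAS
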