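import Pool.Agent.W315.BGame

/-!
The strategy of Forcer on unions of cells.
-/

set_option autoImplicit false
set_option linter.unusedSectionVars false
set_option linter.unusedVariables false

namespace Pool.Agent.W315.Forcer

open Finset

/-- the weight of a cell with `u` free points -/
noncomputable def g (θ : ℝ) (u : ℕ) : ℝ := ∏ j ∈ range u, (1 + θ / ((j : ℝ) + 1))⁻¹

lemma fac_pos {θ : ℝ} (hθ : 0 ≤ θ) (j : ℕ) : 0 < 1 + θ / ((j : ℝ) + 1) := by positivity

lemma g_pos {θ : ℝ} (hθ : 0 ≤ θ) (u : ℕ) : 0 < g θ u :=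
  Finset.prod_pos (fun j _ => inv_pos.2 (fac_pos hθ j))

lemma g_succ {θ : ℝ} (hθ : 0 ≤ θ) (u : ℕ) : g θ u = g θ (u + 1) * (1 + θ / ((u : ℝ) + 1)) := by
  unfold g
  rw [Finset.prod_range_succ, mul_assoc, inv_mul_cancel₀ (fac_pos hθ u).ne', mul_one]

lemma g_anti_succ {θ : ℝ} (hθ : 0 ≤ θ) (u : ℕ) : g θ (u + 1) ≤ g θ u := by
  rw [g_succ hθ u]
  have h1 : 0 < g θ (u + 1) := g_pos hθ _
  have h2 : 0 ≤ θ / ((u : ℝ) + 1) := by positivity
  nlinarith

lemma g_anti {θ : ℝ} (hθ : 0 ≤ θ) : Antitone (g θ) := antitone_nat_of_succ_le (g_anti_succ hθ)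

lemma g_zero (θ : ℝ) : g θ 0 = 1 := by simp [g]

lemma g_le_one {θ : ℝ} (hθ : 0 ≤ θ) (u : ℕ) : g θ u ≤ 1 := by
  rw [← g_zero θ]
  exact g_anti hθ (Nat.zero_le u)

variable {β ι κ : Type*} [DecidableEq β] [DecidableEq ι]

/-- the weight of a winning set -/
noncomputable def wt (X : ι → Finset β) (S : κ → Finset ι) (θ : ℝ) (A : Finset β) (p : κ) : ℝ :=
  ∏ y ∈ S p, g θ (X y \ A).card

/-- no point of the winning set is in `B` -/
def live (X : ι → Finset β) (S : κ → Finset ι) (B : Finset β) (p : κ) : Prop :=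
  ∀ y ∈ S p, Disjoint (X y) B

open Classical in
/-- the potential -/
noncomputable def Phi (X : ι → Finset β) (F : Finset κ) (S : κ → Finset ι) (θ : ℝ)
    (A B : Finset β) : ℝ := ∑ p ∈ F.filter (live X S B), wt X S θ A p

open Classical in
/-- the influence of a cell -/
noncomputable def Inf (X : ι → Finset β) (F : Finset κ) (S : κ → Finset ι) (θ : ℝ)
    (A B : Finset β) (y : ι) : ℝ := ∑ p ∈ F.filter (fun p => live X S B p ∧ y ∈ S p), wt X S θ A p

open Classical in
/-- the cells without a point of `B` -/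
noncomputable def alive (U : Finset ι) (X : ι → Finset β) (B : Finset β) : Finset ι :=
  U.filter (fun y => Disjoint (X y) B)

open Classical in
/-- the free points which are in no alive cell -/
noncomputable def waste (E : Finset β) (U : Finset ι) (X : ι → Finset β) (A B : Finset β) :
    Finset β := (E \ (B ∪ A)).filter (fun z => ∀ y ∈ alive U X B, z ∉ X y)

lemma wt_pos (X : ι → Finset β) (S : κ → Finset ι) {θ : ℝ} (hθ : 0 ≤ θ) (A : Finset β) (p : κ) :
    0 < wt X S θ A p := Finset.prod_pos (fun y _ => g_pos hθ _)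

lemma wt_le_one (X : ι → Finset β) (S : κ → Finset ι) {θ : ℝ} (hθ : 0 ≤ θ) (A : Finset β)
    (p : κ) : wt X S θ A p ≤ 1 :=
  Finset.prod_le_one (fun y _ => (g_pos hθ _).le) (fun y _ => g_le_one hθ _)

lemma wt_mono (X : ι → Finset β) (S : κ → Finset ι) {θ : ℝ} (hθ : 0 ≤ θ) {A A' : Finset β}
    (h : A ⊆ A') (p : κ) : wt X S θ A p ≤ wt X S θ A' p :=
  Finset.prod_le_prod (fun y _ => (g_pos hθ _).le)
    (fun y _ => g_anti hθ (Finset.card_le_card (Finset.sdiff_subset_sdiff le_rfl h)))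

lemma Phi_mono (X : ι → Finset β) (F : Finset κ) (S : κ → Finset ι) {θ : ℝ} (hθ : 0 ≤ θ)
    {A A' : Finset β} (h : A ⊆ A') (B : Finset β) : Phi X F S θ A B ≤ Phi X F S θ A' B :=
  Finset.sum_le_sum (fun p _ => wt_mono X S hθ h p)

lemma Inf_mono (X : ι → Finset β) (F : Finset κ) (S : κ → Finset ι) {θ : ℝ} (hθ : 0 ≤ θ)
    {A A' : Finset β} (h : A ⊆ A') (B : Finset β) (y : ι) :
    Inf X F S θ A B y ≤ Inf X F S θ A' B y :=
  Finset.sum_le_sum (fun p _ => wt_mono X S hθ h p)

lemma Inf_nonneg (X : ι → Finset β) (F : Finset κ) (S : κ → Finset ι) {θ : ℝ} (hθ : 0 ≤ θ)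
    (A B : Finset β) (y : ι) : 0 ≤ Inf X F S θ A B y :=
  Finset.sum_nonneg (fun p _ => (wt_pos X S hθ A p).le)

/-- a new point `z` of Avoider in the alive cell `y` -/
lemma mark (X : ι → Finset β) (F : Finset κ) (S : κ → Finset ι) {θ : ℝ} (hθ : 0 ≤ θ)
    (A B : Finset β) (y : ι) (z : β) (hz : z ∈ X y) (hzA : z ∉ A) :
    Phi X F S θ A B + θ / ((X y \ A).card : ℝ) * Inf X F S θ A B y ≤
      Phi X F S θ (insert z A) B := by
  classical
  unfold Phi Inf
  have hmul : ∀ p, y ∈ S p → wt X S θ A p + θ / ((X y \ A).card : ℝ) * wt X S θ A p ≤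
      wt X S θ (insert z A) p := by
    intro p hp
    unfold wt
    rw [← Finset.mul_prod_erase (S p) _ hp, ← Finset.mul_prod_erase (S p) _ hp]
    have h1 : X y \ insert z A = (X y \ A).erase z := by
      ext x
      simp only [mem_sdiff, mem_insert, mem_erase]
      tauto
    have hzm : z ∈ X y \ A := mem_sdiff.2 ⟨hz, hzA⟩
    obtain ⟨u, hu⟩ : ∃ u, (X y \ A).card = u + 1 :=
      ⟨(X y \ A).card - 1, by have := Finset.card_pos.2 ⟨z, hzm⟩; omega⟩
    have h2 : (X y \ insert z A).card = u := by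
      rw [h1, Finset.card_erase_of_mem hzm, hu]; rfl
    rw [h2, hu]
    have h3 : ∏ x ∈ (S p).erase y, g θ (X x \ A).card ≤
        ∏ x ∈ (S p).erase y, g θ (X x \ insert z A).card :=
      Finset.prod_le_prod (fun x _ => (g_pos hθ _).le)
        (fun x _ => g_anti hθ (Finset.card_le_card
          (Finset.sdiff_subset_sdiff le_rfl (Finset.subset_insert z A))))
    have h4 : (((u + 1 : ℕ) : ℝ)) = (u : ℝ) + 1 := by push_cast; ring
    rw [h4, g_succ hθ u]
    have h5 : 0 < g θ (u + 1) := g_pos hθ _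
    have h6 : 0 ≤ θ / ((u : ℝ) + 1) := by positivity
    calc g θ (u + 1) * (∏ x ∈ (S p).erase y, g θ (X x \ A).card) +
        θ / ((u : ℝ) + 1) * (g θ (u + 1) * ∏ x ∈ (S p).erase y, g θ (X x \ A).card)
        = g θ (u + 1) * (1 + θ / ((u : ℝ) + 1)) * ∏ x ∈ (S p).erase y, g θ (X x \ A).card := by
          ring
      _ ≤ _ := mul_le_mul_of_nonneg_left h3 (mul_nonneg h5.le (by linarith))
  rw [Finset.mul_sum]
  have e : ∑ p ∈ F.filter (fun p => live X S B p ∧ y ∈ S p),
      θ / ((X y \ A).card : ℝ) * wt X S θ A p =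
      ∑ p ∈ F.filter (live X S B), if y ∈ S p then θ / ((X y \ A).card : ℝ) * wt X S θ A p
        else 0 := by
    rw [← Finset.sum_filter, Finset.filter_filter]
  rw [e, ← Finset.sum_add_distrib]
  refine Finset.sum_le_sum (fun p hp => ?_)
  split_ifs with hy
  · exact hmul p hy
  · rw [add_zero]
    exact wt_mono X S hθ (Finset.subset_insert z A) p

section turn

variable (E : Finset β) (U : Finset ι) (X : ι → Finset β) (F : Finset κ) (S : κ → Finset ι)
  (θ Δ D₁ : ℝ) (L : ℕ)

lemma live_insert (hdis : ∀ y ∈ U, ∀ y' ∈ U, y ≠ y' → Disjoint (X y) (X y'))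
    (hS : ∀ p ∈ F, S p ⊆ U) (B : Finset β) (y₀ : ι) (hy₀ : y₀ ∈ U) (z : β) (hz : z ∈ X y₀)
    (p : κ) (hp : p ∈ F) :
    live X S (insert z B) p ↔ live X S B p ∧ y₀ ∉ S p := by
  unfold live
  constructor
  · intro h
    refine ⟨fun y hy => (h y hy).mono_right (Finset.subset_insert z B), fun hy => ?_⟩
    exact (Finset.disjoint_left.1 (h y₀ hy) hz) (Finset.mem_insert_self z B)
  · rintro ⟨h1, h2⟩ y hy
    have hne : y ≠ y₀ := fun h => h2 (h ▸ hy)
    rw [Finset.disjoint_insert_right]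
    refine ⟨fun hzy => ?_, h1 y hy⟩
    exact (Finset.disjoint_left.1 (hdis y (hS p hp hy) y₀ hy₀ hne) hzy) hz

lemma alive_insert (hdis : ∀ y ∈ U, ∀ y' ∈ U, y ≠ y' → Disjoint (X y) (X y'))
    (B : Finset β) (y₀ : ι) (hy₀ : y₀ ∈ U) (z : β) (hz : z ∈ X y₀) :
    alive U X (insert z B) = (alive U X B).erase y₀ := by
  ext y
  unfold alive
  simp only [mem_filter, mem_erase, Finset.disjoint_insert_right]
  constructor
  · rintro ⟨h1, h2, h3⟩
    exact ⟨fun h => h2 (h ▸ hz), h1, h3⟩
  · rintro ⟨h1, h2, h3⟩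
    exact ⟨h2, fun hzy => (Finset.disjoint_left.1 (hdis y h2 y₀ hy₀ h1) hzy) hz, h3⟩

lemma Phi_kill (hdis : ∀ y ∈ U, ∀ y' ∈ U, y ≠ y' → Disjoint (X y) (X y'))
    (hS : ∀ p ∈ F, S p ⊆ U) (A B : Finset β) (y₀ : ι) (hy₀ : y₀ ∈ U) (z : β) (hz : z ∈ X y₀) :
    Phi X F S θ A B = Phi X F S θ A (insert z B) + Inf X F S θ A B y₀ := by
  classical
  unfold Phi Inf
  rw [← Finset.sum_filter_add_sum_filter_not (F.filter (live X S B)) (fun p => y₀ ∈ S p),
    add_comm]
  congr 1
  · rw [Finset.filter_filter]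
    refine Finset.sum_congr (Finset.filter_congr (fun p hp => ?_)) (fun _ _ => rfl)
    exact (live_insert U X F S hdis hS B y₀ hy₀ z hz p hp).symm
  · rw [Finset.filter_filter]

lemma Inf_kill (hθ : 0 ≤ θ) (hdis : ∀ y ∈ U, ∀ y' ∈ U, y ≠ y' → Disjoint (X y) (X y'))
    (hS : ∀ p ∈ F, S p ⊆ U) (A B : Finset β) (y₀ : ι) (hy₀ : y₀ ∈ U) (z : β) (hz : z ∈ X y₀)
    (y : ι) (hy : y ≠ y₀)
    (hcod : ∀ x y : ι, x ≠ y → ((F.filter (fun p => x ∈ S p ∧ y ∈ S p)).card : ℝ) ≤ Δ) :
    Inf X F S θ A B y - Δ ≤ Inf X F S θ A (insert z B) y := by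
  classical
  unfold Inf
  have h1 : ∑ p ∈ F.filter (fun p => live X S B p ∧ y ∈ S p), wt X S θ A p =
      ∑ p ∈ F.filter (fun p => live X S (insert z B) p ∧ y ∈ S p), wt X S θ A p +
      ∑ p ∈ F.filter (fun p => live X S B p ∧ y ∈ S p ∧ y₀ ∈ S p), wt X S θ A p := by
    rw [← Finset.sum_filter_add_sum_filter_not (F.filter (fun p => live X S B p ∧ y ∈ S p))
      (fun p => y₀ ∈ S p), add_comm]
    congr 1
    · rw [Finset.filter_filter]
      refine Finset.sum_congr (Finset.filter_congr (fun p hp => ?_)) (fun _ _ => rfl)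
      rw [live_insert U X F S hdis hS B y₀ hy₀ z hz p hp]
      tauto
    · rw [Finset.filter_filter]
      refine Finset.sum_congr (Finset.filter_congr (fun p hp => ?_)) (fun _ _ => rfl)
      tauto
  have h2 : ∑ p ∈ F.filter (fun p => live X S B p ∧ y ∈ S p ∧ y₀ ∈ S p), wt X S θ A p ≤ Δ := by
    calc ∑ p ∈ F.filter (fun p => live X S B p ∧ y ∈ S p ∧ y₀ ∈ S p), wt X S θ A p
        ≤ ∑ p ∈ F.filter (fun p => live X S B p ∧ y ∈ S p ∧ y₀ ∈ S p), (1 : ℝ) :=
          Finset.sum_le_sum (fun p _ => wt_le_one X S hθ A p)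
      _ = ((F.filter (fun p => live X S B p ∧ y ∈ S p ∧ y₀ ∈ S p)).card : ℝ) := by
          rw [Finset.sum_const, nsmul_eq_mul, mul_one]
      _ ≤ ((F.filter (fun p => y ∈ S p ∧ y₀ ∈ S p)).card : ℝ) := by
          exact_mod_cast Finset.card_le_card (fun p hp => by
            simp only [mem_filter] at hp ⊢
            exact ⟨hp.1, hp.2.2⟩)
      _ ≤ Δ := hcod y y₀ hy
  linarith

lemma Inf_le (hθ : 0 ≤ θ) (A B : Finset β) (y : ι)
    (hdeg : ∀ y : ι, ((F.filter (fun p => y ∈ S p)).card : ℝ) ≤ D₁) :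
    Inf X F S θ A B y ≤ D₁ := by
  classical
  unfold Inf
  calc ∑ p ∈ F.filter (fun p => live X S B p ∧ y ∈ S p), wt X S θ A p
      ≤ ∑ p ∈ F.filter (fun p => live X S B p ∧ y ∈ S p), (1 : ℝ) :=
        Finset.sum_le_sum (fun p _ => wt_le_one X S hθ A p)
    _ = ((F.filter (fun p => live X S B p ∧ y ∈ S p)).card : ℝ) := by
        rw [Finset.sum_const, nsmul_eq_mul, mul_one]
    _ ≤ ((F.filter (fun p => y ∈ S p)).card : ℝ) := by
        exact_mod_cast Finset.card_le_card (fun p hp => by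
          simp only [mem_filter] at hp ⊢
          exact ⟨hp.1, hp.2.2⟩)
    _ ≤ D₁ := hdeg y

/-- a waste point changes nothing -/
lemma waste_step (hS : ∀ p ∈ F, S p ⊆ U) (A B : Finset β) (z : β) (hz : z ∈ waste E U X A B) :
    (∀ p ∈ F, (live X S (insert z B) p ↔ live X S B p)) ∧
    alive U X (insert z B) = alive U X B ∧
    waste E U X A (insert z B) = (waste E U X A B).erase z := by
  classical
  unfold waste at hz
  rw [mem_filter] at hz
  obtain ⟨hz1, hz2⟩ := hz
  have hz3 : ∀ y ∈ U, Disjoint (X y) B → z ∉ X y := fun y hy hd =>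
    hz2 y (by unfold alive; exact mem_filter.2 ⟨hy, hd⟩)
  have hal : alive U X (insert z B) = alive U X B := by
    unfold alive
    refine Finset.filter_congr (fun y hy => ?_)
    rw [Finset.disjoint_insert_right]
    exact ⟨fun h => h.2, fun h => ⟨hz3 y hy h, h⟩⟩
  refine ⟨?_, hal, ?_⟩
  · intro p hp
    unfold live
    constructor
    · intro h y hy
      exact (h y hy).mono_right (Finset.subset_insert z B)
    · intro h y hy
      rw [Finset.disjoint_insert_right]
      exact ⟨hz3 y (hS p hp hy) (h y hy), h y hy⟩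
  · unfold waste
    rw [hal]
    ext x
    simp only [mem_filter, mem_sdiff, mem_union, mem_insert, mem_erase]
    constructor
    · rintro ⟨⟨h1, h2⟩, h3⟩
      push Not at h2
      exact ⟨h2.1.1, ⟨h1, by tauto⟩, h3⟩
    · rintro ⟨h0, ⟨h1, h2⟩, h3⟩
      exact ⟨⟨h1, by tauto⟩, h3⟩

lemma Phi_congr (A B B' : Finset β) (h : ∀ p ∈ F, (live X S B' p ↔ live X S B p)) :
    Phi X F S θ A B' = Phi X F S θ A B := by
  classical
  unfold Phi
  exact Finset.sum_congr (Finset.filter_congr h) (fun _ _ => rfl)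

lemma Inf_congr (A B B' : Finset β) (y : ι) (h : ∀ p ∈ F, (live X S B' p ↔ live X S B p)) :
    Inf X F S θ A B' y = Inf X F S θ A B y := by
  classical
  unfold Inf
  refine Finset.sum_congr (Finset.filter_congr (fun p hp => ?_)) (fun _ _ => rfl)
  rw [h p hp]

/-- the waste after a kill when there was none before -/
lemma waste_kill (hdis : ∀ y ∈ U, ∀ y' ∈ U, y ≠ y' → Disjoint (X y) (X y'))
    (hXE : ∀ y ∈ U, X y ⊆ E) (A B : Finset β) (y₀ : ι) (hy₀ : y₀ ∈ alive U X B) (z : β)
    (hz : z ∈ X y₀) (hzA : z ∉ A) (hw : waste E U X A B = ∅) :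
    (waste E U X A (insert z B)).card + 1 = (X y₀ \ A).card := by
  classical
  have hy₀' : y₀ ∈ U ∧ Disjoint (X y₀) B := by
    unfold alive at hy₀
    exact mem_filter.1 hy₀
  have e : waste E U X A (insert z B) = (X y₀ \ A).erase z := by
    ext x
    constructor
    · intro hx
      unfold waste at hx
      rw [alive_insert U X hdis B y₀ hy₀'.1 z hz] at hx
      simp only [mem_filter, mem_sdiff, mem_union, mem_insert, mem_erase] at hx
      obtain ⟨⟨h1, h2⟩, h3⟩ := hx
      push Not at h2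
      have hxw : x ∉ waste E U X A B := by rw [hw]; simp
      unfold waste at hxw
      rw [mem_filter] at hxw
      push Not at hxw
      obtain ⟨y, hy1, hy2⟩ := hxw (by
        rw [mem_sdiff, mem_union]
        exact ⟨h1, by tauto⟩)
      have hyy : y = y₀ := by
        by_contra hne
        exact h3 y ⟨hne, hy1⟩ hy2
      rw [mem_erase, mem_sdiff]
      exact ⟨h2.1.1, hyy ▸ hy2, h2.2⟩
    · intro hx
      rw [mem_erase, mem_sdiff] at hx
      obtain ⟨h1, h2, h3⟩ := hx
      unfold waste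
      rw [alive_insert U X hdis B y₀ hy₀'.1 z hz]
      simp only [mem_filter, mem_sdiff, mem_union, mem_insert, mem_erase]
      have hxB : x ∉ B := Finset.disjoint_left.1 hy₀'.2 h2
      refine ⟨⟨hXE y₀ hy₀'.1 h2, by tauto⟩, ?_⟩
      rintro y ⟨hy1, hy2⟩ hxy
      have hyU : y ∈ U := by
        unfold alive at hy2
        exact (mem_filter.1 hy2).1
      exact (Finset.disjoint_left.1 (hdis y hyU y₀ hy₀'.1 hy1) hxy) h2
  rw [e]
  exact Finset.card_erase_add_one (mem_sdiff.2 ⟨hz, hzA⟩)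

/-- one turn of Forcer -/
lemma turn (hθ : 0 ≤ θ) (hΔ : 0 ≤ Δ)
    (hdis : ∀ y ∈ U, ∀ y' ∈ U, y ≠ y' → Disjoint (X y) (X y'))
    (hXE : ∀ y ∈ U, X y ⊆ E) (hXL : ∀ y ∈ U, (X y).card ≤ L) (hS : ∀ p ∈ F, S p ⊆ U)
    (hcod : ∀ x y : ι, x ≠ y → ((F.filter (fun p => x ∈ S p ∧ y ∈ S p)).card : ℝ) ≤ Δ)
    (hdeg : ∀ y : ι, ((F.filter (fun p => y ∈ S p)).card : ℝ) ≤ D₁)
    (A B : Finset β) : ∀ r : ℕ, r ≤ (E \ (B ∪ A)).card →
    ∃ m : Finset β, m ⊆ E \ (B ∪ A) ∧ m.card = r ∧ ∃ (c : ℝ) (s : ℕ), 0 ≤ c ∧ s ≤ r ∧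
      Phi X F S θ A B ≤ Phi X F S θ A (B ∪ m) + c * (r + (waste E U X A (B ∪ m)).card) ∧
      (∀ y ∈ alive U X (B ∪ m), c * ((X y \ A).card : ℝ) - s * Δ ≤ Inf X F S θ A (B ∪ m) y) ∧
      (c = 0 ∨ (waste E U X A (B ∪ m)).card + 1 ≤ L) ∧
      (alive U X (B ∪ m)).card + s = (alive U X B).card ∧
      Phi X F S θ A B ≤ Phi X F S θ A (B ∪ m) + s * D₁ := by
  classical
  intro r
  induction r with
  | zero =>
    intro _
    refine ⟨∅, Finset.empty_subset _, rfl, 0, 0, le_rfl, le_rfl, ?_, ?_, Or.inl rfl, ?_, ?_⟩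
    · simp
    · intro y _
      simp only [Finset.union_empty, zero_mul, Nat.cast_zero, sub_zero]
      exact Inf_nonneg X F S hθ A B y
    · simp
    · simp
  | succ r ih =>
    intro hr
    obtain ⟨m, hm, hmc, c, s, hc, hs, i1, i2, i3, i4, i5⟩ := ih (by omega)
    by_cases hw : (waste E U X A (B ∪ m)).Nonempty
    · -- take a waste point
      obtain ⟨z, hz⟩ := hw
      obtain ⟨w1, w2, w3⟩ := waste_step E U X F S hS A (B ∪ m) z hz
      have hzf : z ∈ E \ (B ∪ m ∪ A) := by
        unfold waste at hz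
        exact (mem_filter.1 hz).1
      have hzm : z ∉ m := by
        simp only [mem_sdiff, mem_union, not_or] at hzf
        exact hzf.2.1.2
      have hzE : z ∈ E \ (B ∪ A) := by
        simp only [mem_sdiff, mem_union, not_or] at hzf ⊢
        exact ⟨hzf.1, hzf.2.1.1, hzf.2.2⟩
      have e : B ∪ insert z m = insert z (B ∪ m) := by
        ext x; simp only [mem_union, mem_insert]; tauto
      refine ⟨insert z m, Finset.insert_subset hzE hm, by rw [card_insert_of_notMem hzm, hmc],
        c, s, hc, by omega, ?_, ?_, ?_, ?_, ?_⟩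
      · rw [e, Phi_congr X F S θ A (B ∪ m) _ w1, w3, Finset.card_erase_of_mem hz]
        have h1 : 1 ≤ (waste E U X A (B ∪ m)).card := Finset.card_pos.2 ⟨z, hz⟩
        rw [Nat.cast_sub h1]
        push_cast
        have : c * ((r : ℝ) + 1 + (((waste E U X A (B ∪ m)).card : ℝ) - 1)) =
          c * ((r : ℝ) + (waste E U X A (B ∪ m)).card) := by ring
        rw [this]
        exact i1
      · intro y hy
        rw [e] at hy ⊢
        rw [w2] at hy
        rw [Inf_congr X F S θ A (B ∪ m) _ y w1]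
        exact i2 y hy
      · rw [e, w3, Finset.card_erase_of_mem hz]
        rcases i3 with h | h
        · exact Or.inl h
        · right; omega
      · rw [e, w2]
        exact i4
      · rw [e, Phi_congr X F S θ A (B ∪ m) _ w1]
        exact i5
    · -- kill a cell
      rw [Finset.not_nonempty_iff_eq_empty] at hw
      have hfree : (E \ (B ∪ m ∪ A)).Nonempty := by
        rw [← Finset.card_pos]
        have e : E \ (B ∪ m ∪ A) = (E \ (B ∪ A)) \ m := by
          ext x; simp only [mem_union, mem_sdiff]; tauto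
        rw [e, Finset.card_sdiff_of_subset hm, hmc]
        omega
      obtain ⟨z', hz'⟩ := hfree
      have hex : ∃ y ∈ alive U X (B ∪ m), z' ∈ X y := by
        by_contra hcon
        push Not at hcon
        have : z' ∈ waste E U X A (B ∪ m) := by
          unfold waste
          exact mem_filter.2 ⟨hz', hcon⟩
        rw [hw] at this
        simp at this
      obtain ⟨y', hy', hzy'⟩ := hex
      have hzA' : z' ∉ A := by
        simp only [mem_sdiff, mem_union, not_or] at hz'
        exact hz'.2.2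
      set C : Finset ι := (alive U X (B ∪ m)).filter (fun y => (X y \ A).Nonempty) with hC
      have hCne : C.Nonempty := ⟨y', mem_filter.2 ⟨hy', ⟨z', mem_sdiff.2 ⟨hzy', hzA'⟩⟩⟩⟩
      obtain ⟨y₀, hy₀, hmin⟩ := Finset.exists_min_image C
        (fun y => Inf X F S θ A (B ∪ m) y / ((X y \ A).card : ℝ)) hCne
      obtain ⟨hy₀a, ⟨z, hz⟩⟩ := mem_filter.1 hy₀
      have hy₀' : y₀ ∈ U ∧ Disjoint (X y₀) (B ∪ m) := by
        unfold alive at hy₀a
        exact mem_filter.1 hy₀a
      obtain ⟨hzX, hzA⟩ := mem_sdiff.1 hz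
      have hzBm : z ∉ B ∪ m := Finset.disjoint_left.1 hy₀'.2 hzX
      have hzm : z ∉ m := fun h => hzBm (mem_union_right _ h)
      have hzE : z ∈ E \ (B ∪ A) := by
        simp only [mem_sdiff, mem_union, not_or] at hzBm ⊢
        exact ⟨hXE y₀ hy₀'.1 hzX, hzBm.1, hzA⟩
      have e : B ∪ insert z m = insert z (B ∪ m) := by
        ext x; simp only [mem_union, mem_insert]; tauto
      have hu₀ : 0 < (X y₀ \ A).card := Finset.card_pos.2 ⟨z, hz⟩
      have hu₀r : (0 : ℝ) < (X y₀ \ A).card := by exact_mod_cast hu₀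
      set c' : ℝ := Inf X F S θ A (B ∪ m) y₀ / ((X y₀ \ A).card : ℝ) with hc'
      have hc'0 : 0 ≤ c' := div_nonneg (Inf_nonneg X F S hθ A _ y₀) hu₀r.le
      have hI₀ : Inf X F S θ A (B ∪ m) y₀ = c' * (X y₀ \ A).card := by
        rw [hc', div_mul_cancel₀ _ hu₀r.ne']
      have hkill := Phi_kill U X F S θ hdis hS A (B ∪ m) y₀ hy₀'.1 z hzX
      have hwk := waste_kill E U X hdis hXE A (B ∪ m) y₀ hy₀a z hzX hzA hw
      have hIle := Inf_le X F S θ D₁ hθ A (B ∪ m) y₀ hdeg
      refine ⟨insert z m, Finset.insert_subset hzE hm, by rw [card_insert_of_notMem hzm, hmc],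
        max c c', s + 1, hc.trans (le_max_left _ _), by omega, ?_, ?_, ?_, ?_, ?_⟩
      · rw [e]
        have h1 : ((waste E U X A (insert z (B ∪ m))).card : ℝ) + 1 = (X y₀ \ A).card := by
          exact_mod_cast hwk
        have h2 : (((r + 1 : ℕ)) : ℝ) + (waste E U X A (insert z (B ∪ m))).card =
            r + (X y₀ \ A).card := by
          push_cast
          linarith
        rw [h2]
        rw [hw] at i1
        simp only [Finset.card_empty, Nat.cast_zero, add_zero] at i1
        have h3 : c * (r : ℝ) ≤ max c c' * r :=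
          mul_le_mul_of_nonneg_right (le_max_left _ _) (Nat.cast_nonneg r)
        have h4 : c' * ((X y₀ \ A).card : ℝ) ≤ max c c' * (X y₀ \ A).card :=
          mul_le_mul_of_nonneg_right (le_max_right _ _) hu₀r.le
        have h5 : max c c' * ((r : ℝ) + (X y₀ \ A).card) =
          max c c' * r + max c c' * (X y₀ \ A).card := by ring
        linarith
      · intro y hy
        rw [e] at hy ⊢
        rw [alive_insert U X hdis (B ∪ m) y₀ hy₀'.1 z hzX, mem_erase] at hy
        obtain ⟨hyne, hya⟩ := hy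
        have h1 := Inf_kill U X F S θ Δ hθ hdis hS A (B ∪ m) y₀ hy₀'.1 z hzX y hyne hcod
        have h2 := i2 y hya
        have hsΔ : 0 ≤ (s : ℝ) * Δ := mul_nonneg (Nat.cast_nonneg s) hΔ
        have h3 : max c c' * ((X y \ A).card : ℝ) - s * Δ ≤ Inf X F S θ A (B ∪ m) y := by
          rcases max_cases c c' with ⟨h, -⟩ | ⟨h, -⟩
          · rw [h]; exact h2
          · rw [h]
            by_cases hyC : (X y \ A).Nonempty
            · have h4 := hmin y (mem_filter.2 ⟨hya, hyC⟩)
              have h5 : (0 : ℝ) < (X y \ A).card := by exact_mod_cast Finset.card_pos.2 hyC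
              rw [le_div_iff₀ h5] at h4
              linarith
            · rw [Finset.not_nonempty_iff_eq_empty] at hyC
              rw [hyC]
              simp only [Finset.card_empty, Nat.cast_zero, mul_zero, zero_sub]
              have := Inf_nonneg X F S hθ A (B ∪ m) y
              linarith
        push_cast
        linarith
      · right
        rw [e, hwk]
        exact (Finset.card_le_card Finset.sdiff_subset).trans (hXL y₀ hy₀'.1)
      · rw [e, alive_insert U X hdis (B ∪ m) y₀ hy₀'.1 z hzX, Finset.card_erase_of_mem hy₀a]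
        have : 0 < (alive U X (B ∪ m)).card := Finset.card_pos.2 ⟨y₀, hy₀a⟩
        omega
      · rw [e]
        push_cast
        linarith

/-- the reply of Avoider -/
lemma reply (hθ : 0 ≤ θ) (hΔ : 0 ≤ Δ) (A B : Finset β) (c : ℝ) (hc : 0 ≤ c) (s : ℕ)
    (h : ∀ y ∈ alive U X B, c * ((X y \ A).card : ℝ) - s * Δ ≤ Inf X F S θ A B y) :
    ∀ b : Finset β, b ⊆ E \ (B ∪ A) →
      Phi X F S θ A B + θ * c * ((b \ waste E U X A B).card : ℝ) ≤
        Phi X F S θ (A ∪ b) B + θ * s * Δ * (b.card : ℝ) := by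
  classical
  intro b
  induction b using Finset.induction_on with
  | empty => intro _; simp
  | insert z b hzb ih =>
    intro hb
    have hb' : b ⊆ E \ (B ∪ A) := (Finset.subset_insert z b).trans hb
    have hzf : z ∈ E \ (B ∪ A) := hb (Finset.mem_insert_self z b)
    have ih' := ih hb'
    have e : A ∪ insert z b = insert z (A ∪ b) := by
      ext x; simp only [mem_union, mem_insert]; tauto
    rw [e, card_insert_of_notMem hzb]
    have hsΔ : 0 ≤ θ * s * Δ := by positivity
    push_cast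
    by_cases hzw : z ∈ waste E U X A B
    · rw [Finset.insert_sdiff_of_mem _ hzw]
      have := Phi_mono X F S hθ (Finset.subset_insert z (A ∪ b)) B
      linarith
    · have h1 : (insert z b \ waste E U X A B).card = (b \ waste E U X A B).card + 1 := by
        rw [Finset.insert_sdiff_of_notMem _ hzw, Finset.card_insert_of_notMem]
        intro hmem
        exact hzb (mem_sdiff.1 hmem).1
      rw [h1]
      push_cast
      have hex : ∃ y ∈ alive U X B, z ∈ X y := by
        by_contra hcon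
        push Not at hcon
        apply hzw
        unfold waste
        exact mem_filter.2 ⟨hzf, hcon⟩
      obtain ⟨y, hya, hzy⟩ := hex
      have hzA : z ∉ A ∪ b := by
        simp only [mem_sdiff, mem_union, not_or] at hzf ⊢
        exact ⟨hzf.2.2, hzb⟩
      have hm := mark X F S hθ (A ∪ b) B y z hzy hzA
      have hIm := Inf_mono X F S hθ (Finset.subset_union_left : A ⊆ A ∪ b) B y
      have hy := h y hya
      have hu1 : 1 ≤ (X y \ (A ∪ b)).card := Finset.card_pos.2 ⟨z, mem_sdiff.2 ⟨hzy, hzA⟩⟩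
      have hu1r : (1 : ℝ) ≤ (X y \ (A ∪ b)).card := by exact_mod_cast hu1
      have hule : ((X y \ (A ∪ b)).card : ℝ) ≤ (X y \ A).card := by
        exact_mod_cast Finset.card_le_card
          (Finset.sdiff_subset_sdiff le_rfl Finset.subset_union_left)
      have hI : c * ((X y \ (A ∪ b)).card : ℝ) - s * Δ ≤ Inf X F S θ (A ∪ b) B y := by
        have := mul_le_mul_of_nonneg_left hule hc
        linarith
      have hgain : θ * c - θ * s * Δ ≤
          θ / ((X y \ (A ∪ b)).card : ℝ) * Inf X F S θ (A ∪ b) B y := by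
        have h0 : (0 : ℝ) < (X y \ (A ∪ b)).card := by linarith
        have h2 : θ / ((X y \ (A ∪ b)).card : ℝ) * (c * ((X y \ (A ∪ b)).card : ℝ) - s * Δ) ≤
            θ / ((X y \ (A ∪ b)).card : ℝ) * Inf X F S θ (A ∪ b) B y :=
          mul_le_mul_of_nonneg_left hI (by positivity)
        have h3 : θ / ((X y \ (A ∪ b)).card : ℝ) * (c * ((X y \ (A ∪ b)).card : ℝ) - s * Δ) =
            θ * c - θ * s * Δ / (X y \ (A ∪ b)).card := by
          field_simp
        have h4 : θ * s * Δ / (X y \ (A ∪ b)).card ≤ θ * s * Δ := div_le_self hsΔ hu1r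
        linarith
      linarith

end turn

/-- Forcer's strategy. -/
theorem forcer_win (E : Finset β) (b₀ b₁ p : ℕ) (hp : p < 2) (f a : ℕ)
    (hf : BGame.bias b₀ b₁ p = f) (ha : BGame.bias b₀ b₁ (1 - p) = a) (hf1 : 1 ≤ f)
    (U : Finset ι) (X : ι → Finset β) (F : Finset κ) (S : κ → Finset ι)
    (θ Δ D₁ : ℝ) (L : ℕ) (hθ : 0 ≤ θ) (hΔ : 0 ≤ Δ) (hD₁ : 0 ≤ D₁) (hL : 1 ≤ L) (hLa : L ≤ a)
    (hθL : (f : ℝ) + L - 1 ≤ θ * ((a : ℝ) - L + 1))
    (hdis : ∀ y ∈ U, ∀ y' ∈ U, y ≠ y' → Disjoint (X y) (X y'))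
    (hXE : ∀ y ∈ U, X y ⊆ E) (hXL : ∀ y ∈ U, (X y).card ≤ L) (hS : ∀ p ∈ F, S p ⊆ U)
    (hcod : ∀ x y : ι, x ≠ y → ((F.filter (fun p => x ∈ S p ∧ y ∈ S p)).card : ℝ) ≤ Δ)
    (hdeg : ∀ y : ι, ((F.filter (fun p => y ∈ S p)).card : ℝ) ≤ D₁)
    (hbig : θ * a * Δ * U.card + f * D₁ < ∑ p ∈ F, ∏ y ∈ S p, g θ (X y).card) :
    ∃ σ : List (Finset β) → Finset β,
      (∀ h : List (Finset β), BGame.Legal E b₀ b₁ h → BGame.Follows p σ h → h.length % 2 = p →
        (LatKK.free E h).Nonempty → BGame.IsMove E (BGame.bias b₀ b₁ p) h (σ h)) ∧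
      (∀ h : List (Finset β), BGame.Legal E b₀ b₁ h → BGame.Follows p σ h → LatKK.free E h = ∅ →
        ∃ q ∈ F, ∀ y ∈ S q, X y ⊆ LatKK.own E (1 - p) h) := by
  classical
  have ha1 : 1 ≤ a := hL.trans hLa
  have hK : 0 ≤ θ * a * Δ := by positivity
  have hPhi0 : Phi X F S θ ∅ ∅ = ∑ p ∈ F, ∏ y ∈ S p, g θ (X y).card := by
    unfold Phi wt
    have : F.filter (live X S ∅) = F := Finset.filter_true_of_mem (fun p _ y _ => by simp)
    rw [this]
    simp only [Finset.sdiff_empty]
  have hal0 : ((alive U X ∅).card : ℝ) ≤ U.card := by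
    unfold alive
    exact_mod_cast Finset.card_filter_le _ _
  have hstart : ∀ b : Finset β, θ * a * Δ * (alive U X ∅).card + f * D₁ < Phi X F S θ b ∅ := by
    intro b
    have h1 := Phi_mono X F S hθ (Finset.empty_subset b) ∅
    have h2 := mul_le_mul_of_nonneg_left hal0 hK
    linarith
  obtain ⟨σ, h1, h2⟩ := BGame.exists_strategy E b₀ b₁ p hp (by omega)
    (fun M B => (E \ (M ∪ B) = ∅ ∧ 0 < Phi X F S θ B M) ∨
      (θ * a * Δ * (alive U X M).card + f * D₁ < Phi X F S θ B M))
    (fun M B => ∃ q ∈ F, ∀ y ∈ S q, X y ⊆ B)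
    (fun _ => Or.inr (hstart ∅)) (fun _ b _ _ => Or.inr (hstart b))
    (by
      intro M B hM hB hMB hG hne
      have hG' : θ * a * Δ * (alive U X M).card + f * D₁ < Phi X F S θ B M := by
        rcases hG with h | h
        · exact absurd h.1 (Finset.nonempty_iff_ne_empty.1 hne)
        · exact h
      obtain ⟨m, hm, hmc, c, s, hc, hs, i1, i2, i3, i4, i5⟩ :=
        turn E U X F S θ Δ D₁ L hθ hΔ hdis hXE hXL hS hcod hdeg B M
          (min f (E \ (M ∪ B)).card) (min_le_right _ _)
      refine ⟨m, hm, by rw [hf]; exact hmc, ?_⟩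
      intro b hb hbc
      rw [ha] at hbc
      have e : E \ (M ∪ B ∪ m) = E \ (M ∪ m ∪ B) := by
        ext x; simp only [mem_union, mem_sdiff]; tauto
      rw [e] at hb hbc
      have hsf : (s : ℝ) ≤ f := by
        have : s ≤ f := hs.trans (min_le_left _ _)
        exact_mod_cast this
      by_cases hfull : a ≤ (E \ (M ∪ m ∪ B)).card
      · right
        have hbca : b.card = a := by rw [hbc]; exact min_eq_left hfull
        have hrep := reply E U X F S θ Δ hθ hΔ B (M ∪ m) c hc s i2 b hb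
        rw [hbca] at hrep
        have hcard : (a : ℝ) - (waste E U X B (M ∪ m)).card ≤
            ((b \ waste E U X B (M ∪ m)).card : ℝ) := by
          have h3 : b.card - (waste E U X B (M ∪ m)).card ≤
              (b \ waste E U X B (M ∪ m)).card := Finset.le_card_sdiff _ _
          have h4 : a ≤ (b \ waste E U X B (M ∪ m)).card + (waste E U X B (M ∪ m)).card := by
            omega
          have h5 : (a : ℝ) ≤ (b \ waste E U X B (M ∪ m)).card +
              (waste E U X B (M ∪ m)).card := by exact_mod_cast h4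
          linarith
        have hloss : c * (((min f (E \ (M ∪ B)).card : ℕ) : ℝ) +
            (waste E U X B (M ∪ m)).card) ≤
            θ * c * ((b \ waste E U X B (M ∪ m)).card : ℝ) := by
          rcases i3 with h | h
          · rw [h]; simp
          · have hr : ((min f (E \ (M ∪ B)).card : ℕ) : ℝ) ≤ f := by
              exact_mod_cast min_le_left _ _
            have hw : ((waste E U X B (M ∪ m)).card : ℝ) + 1 ≤ L := by exact_mod_cast h
            have h6 : ((min f (E \ (M ∪ B)).card : ℕ) : ℝ) + (waste E U X B (M ∪ m)).card ≤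
                θ * ((a : ℝ) - L + 1) := by linarith
            have h7 : θ * ((a : ℝ) - L + 1) ≤ θ * ((b \ waste E U X B (M ∪ m)).card : ℝ) :=
              mul_le_mul_of_nonneg_left (by linarith) hθ
            calc c * (((min f (E \ (M ∪ B)).card : ℕ) : ℝ) + (waste E U X B (M ∪ m)).card)
                ≤ c * (θ * ((b \ waste E U X B (M ∪ m)).card : ℝ)) :=
                  mul_le_mul_of_nonneg_left (h6.trans h7) hc
              _ = _ := by ring
        have h8 : ((alive U X (M ∪ m)).card : ℝ) + s = (alive U X M).card := by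
          exact_mod_cast i4
        have h9 : θ * a * Δ * (alive U X (M ∪ m)).card + θ * s * Δ * a =
            θ * a * Δ * (alive U X M).card := by
          rw [← h8]; ring
        linarith
      · left
        push Not at hfull
        have hball : b = E \ (M ∪ m ∪ B) :=
          Finset.eq_of_subset_of_card_le hb (by rw [hbc, min_eq_right hfull.le])
        refine ⟨?_, ?_⟩
        · rw [hball]
          ext x; simp only [mem_union, mem_sdiff, Finset.notMem_empty]; tauto
        · have h3 := Phi_mono X F S hθ (Finset.subset_union_left : B ⊆ B ∪ b) (M ∪ m)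
          have h4 : (s : ℝ) * D₁ ≤ f * D₁ := mul_le_mul_of_nonneg_right hsf hD₁
          have h5 : 0 ≤ θ * a * Δ * ((alive U X M).card : ℝ) := mul_nonneg hK (Nat.cast_nonneg _)
          linarith)
    (by
      intro M B hM hB hMB hG hemp
      have hpos : 0 < Phi X F S θ B M := by
        rcases hG with h | h
        · exact h.2
        · have h5 : 0 ≤ θ * a * Δ * ((alive U X M).card : ℝ) := mul_nonneg hK (Nat.cast_nonneg _)
          have h6 : 0 ≤ (f : ℝ) * D₁ := mul_nonneg (Nat.cast_nonneg _) hD₁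
          linarith
      unfold Phi at hpos
      have hne : (F.filter (live X S M)).Nonempty := by
        by_contra hcon
        rw [Finset.not_nonempty_iff_eq_empty] at hcon
        rw [hcon] at hpos
        simp at hpos
      obtain ⟨q, hq⟩ := hne
      obtain ⟨hqF, hql⟩ := mem_filter.1 hq
      refine ⟨q, hqF, fun y hy x hx => ?_⟩
      have hxE := hXE y (hS q hqF hy) hx
      have hxM : x ∉ M := Finset.disjoint_left.1 (hql y hy) hx
      by_contra hxB
      have : x ∈ E \ (M ∪ B) := by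
        rw [mem_sdiff, mem_union]
        exact ⟨hxE, by tauto⟩
      rw [hemp] at this
      simp at this)
  exact ⟨σ, h1, h2⟩

end Pool.Agent.W315.Forcer
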