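import Pool.Agent.W315.LatDefs
import Pool.Agent.W315.Forcer
import Pool.Agent.W315.LatParams
import Pool.Agent.LatKK.Lattice

/-!
Forcer's strategy for parallelogram lattices.
-/

set_option autoImplicit false
set_option linter.unusedSectionVars false
set_option linter.unusedVariables false

namespace Pool.Agent.W315.ForcerLat

open Finset Pool.Agent.W315.Lat

lemma degree (k m R : ℕ) (hk : 1 ≤ k) (hm : 1 ≤ m) (x : ℤ × ℤ) :
    ((LatKK.FF k m R).filter (fun p => x ∈ LatKK.SS k m R p)).card ≤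
      (m * (k * m + k - 1)) * R ^ 2 := by
  obtain ⟨J, hJ⟩ : ∃ J : Finset ℤ, J = Ioc (-((k * m : ℕ) : ℤ)) (((k * m : ℕ) - 1 : ℤ) * m) :=
    ⟨_, rfl⟩
  have hcard : J.card = m * (k * m + k - 1) := by
    rw [hJ, Int.card_Ioc]
    obtain ⟨k', rfl⟩ : ∃ k', k = k' + 1 := ⟨k - 1, by omega⟩
    have e : ((k' + 1) * m + (k' + 1) - 1) = (k' + 1) * m + k' := by omega
    rw [e]
    have e2 : (((((k' + 1) * m : ℕ) : ℤ) - 1) * m - -(((k' + 1) * m : ℕ) : ℤ)) =
        ((m * ((k' + 1) * m + k') : ℕ) : ℤ) := by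
      push_cast
      ring
    rw [e2, Int.toNat_natCast]
  have hex : ∀ p ∈ (LatKK.FF k m R).filter (fun p => x ∈ LatKK.SS k m R p),
      ∃ i : ℤ, i ∈ J ∧ LatKK.yy k m R p i = x := by
    intro p hp
    obtain ⟨-, hx⟩ := Finset.mem_filter.1 hp
    rw [LatKK.SS, ← hJ, Finset.mem_image] at hx
    exact hx
  choose! φ hφ using hex
  have hR : (Icc (1 : ℤ) R ×ˢ Icc (1 : ℤ) R).card = R ^ 2 := by
    rw [card_product, Int.card_Icc, add_sub_cancel_right, Int.toNat_natCast, sq]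
  rw [← hcard, ← hR, ← Finset.card_product]
  refine Finset.card_le_card_of_injOn (fun p => (φ p, p.2)) (fun p hp => ?_) ?_
  · have hp' : p ∈ LatKK.FF k m R := (Finset.mem_filter.1 hp).1
    unfold LatKK.FF at hp'
    exact Finset.mem_coe.2 (Finset.mem_product.2 ⟨(hφ p hp).1, (Finset.mem_product.1 hp').2⟩)
  · intro p hp p' hp' he
    have h1 := (hφ p hp).2
    have h2 := (hφ p' hp').2
    obtain ⟨⟨P1, P2⟩, v⟩ := p
    obtain ⟨⟨Q1, Q2⟩, w⟩ := p'
    simp only [Prod.mk.injEq] at he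
    obtain ⟨he1, he2⟩ := he
    subst he2
    rw [← he1] at h2
    generalize φ ((P1, P2), v) = i at h1 h2
    obtain ⟨x1, x2⟩ := x
    simp only [LatKK.yy, Prod.mk.injEq] at h1 h2
    have e3 : P1 = Q1 := by linarith [h1.1, h2.1]
    have e4 : P2 = Q2 := by linarith [h1.2, h2.2]
    rw [e3, e4]

/-- the inverse of the weight of an untouched cell of size `L` -/
noncomputable def BB (a f L : ℕ) : ℝ :=
  ∏ j ∈ range L, (1 + (((f : ℝ) + L - 1) / ((a : ℝ) - L + 1)) / ((j : ℝ) + 1))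

lemma own_mem {N r : ℕ} (h : List (Finset (ℤ × ℤ))) {x : ℤ × ℤ}
    (hx : x ∈ LatKK.own (board N) r h) : x ∈ Owned r h := by
  unfold LatKK.own at hx
  rw [Finset.mem_filter] at hx
  exact hx.2

lemma forcer_lower (a f L : ℕ) (hf : 1 ≤ f) (hL : 1 ≤ L) (hLa : L ≤ a) (c : ℝ) (hc : 0 < c)
    (h : c ^ 2 * Real.logb 2 (BB a f L) < 2 * L) :
    ∃ N₀ : ℕ, ∀ N : ℕ, N₀ ≤ N → ∃ q : ℕ, c * Real.sqrt (Real.logb 2 N) ≤ q ∧
      ForcerWinsSecond a f N Cls.parallelogram q ∧ ForcerWinsFirst a f N Cls.parallelogram q := by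
  set θ : ℝ := ((f : ℝ) + L - 1) / ((a : ℝ) - L + 1) with hθ
  have hLr : (1 : ℝ) ≤ L := by exact_mod_cast hL
  have hLar : (L : ℝ) ≤ a := by exact_mod_cast hLa
  have hfr : (1 : ℝ) ≤ f := by exact_mod_cast hf
  have hθden : 0 < (a : ℝ) - L + 1 := by linarith
  have hθ0 : 0 < θ := div_pos (by linarith) hθden
  have hBB : (Forcer.g θ L)⁻¹ = BB a f L := by
    unfold Forcer.g BB
    rw [← Finset.prod_inv_distrib]
    refine Finset.prod_congr rfl (fun j _ => ?_)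
    rw [inv_inv]
  have hB1 : 1 ≤ BB a f L := by
    rw [← hBB]
    exact (one_le_inv₀ (Forcer.g_pos hθ0.le L)).2 (Forcer.g_le_one hθ0.le L)
  have hB0 : 0 < BB a f L := by linarith
  set C : ℝ := 16 * θ * a + f with hC
  have hC0 : 0 < C := by positivity
  obtain ⟨N₀, hN₀⟩ := LatParams.params L hL c hc (BB a f L) hB1 C hC0 h
  refine ⟨N₀, fun N hN => ?_⟩
  obtain ⟨m, R, hm, hR, hcq, hle, hlt⟩ := hN₀ N hN
  refine ⟨L * m, hcq, ?_⟩
  set n := m * (L * m + L - 1) with hn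
  have hn1 : 1 ≤ n := by
    rw [hn]
    refine Nat.mul_pos hm ?_
    have : 1 ≤ L * m := Nat.mul_pos hL hm
    omega
  have hnr : (1 : ℝ) ≤ n := by exact_mod_cast hn1
  have hmr : (1 : ℝ) ≤ m := by exact_mod_cast hm
  have hRr : (1 : ℝ) ≤ R := by exact_mod_cast hR
  have hbig : θ * a * ((n : ℝ) ^ 2) * ((LatKK.UU L m R).card : ℝ) + f * ((n : ℝ) * (R : ℝ) ^ 2) <
      ∑ p ∈ LatKK.FF L m R, ∏ y ∈ LatKK.SS L m R p, Forcer.g θ (LatKK.XX L m R y).card := by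
    have hlow : ((LatKK.FF L m R).card : ℝ) * ((BB a f L)⁻¹) ^ n ≤
        ∑ p ∈ LatKK.FF L m R, ∏ y ∈ LatKK.SS L m R p, Forcer.g θ (LatKK.XX L m R y).card := by
      rw [← nsmul_eq_mul]
      refine Finset.card_nsmul_le_sum _ _ _ (fun p hp => ?_)
      have h1 : ∏ y ∈ LatKK.SS L m R p, Forcer.g θ (LatKK.XX L m R y).card =
          ((BB a f L)⁻¹) ^ (LatKK.SS L m R p).card := by
        rw [← Finset.prod_const]
        refine Finset.prod_congr rfl (fun y hy => ?_)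
        rw [LatKK.card_XX L m R hL hm hR y (LatKK.SS_subset L m R hL hm hR p hp hy), ← hBB,
          inv_inv]
      rw [h1]
      exact pow_le_pow_of_le_one (inv_nonneg.2 hB0.le) (inv_le_one_of_one_le₀ hB1)
        (LatKK.card_SS_le L m R hL hm p)
    refine lt_of_lt_of_le ?_ hlow
    rw [LatKK.card_UU, LatKK.card_FF]
    push_cast
    set Q : ℝ := ((L : ℝ) * m * m * R) ^ 2 with hQ
    have hQR : (R : ℝ) ^ 2 ≤ Q := by
      rw [hQ]
      refine pow_le_pow_left₀ (by linarith) ?_ 2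
      have h2 : (1 : ℝ) ≤ (L : ℝ) * m * m := by
        have h3 : (1 : ℝ) ≤ (L : ℝ) * m := one_le_mul_of_one_le_of_one_le hLr hmr
        exact one_le_mul_of_one_le_of_one_le h3 hmr
      nlinarith
    have hQ0 : 0 < Q := lt_of_lt_of_le (by positivity) hQR
    have hBn : 0 < (BB a f L) ^ n := pow_pos hB0 n
    rw [inv_pow]
    have e1 : Q * (R : ℝ) ^ 2 * ((BB a f L) ^ n)⁻¹ = Q / (BB a f L) ^ n * (R : ℝ) ^ 2 := by
      field_simp
    rw [e1]
    have e2 : f * ((n : ℝ) * (R : ℝ) ^ 2) ≤ f * (m * (n : ℝ) ^ 2) * Q := by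
      have h3 : (n : ℝ) ≤ m * (n : ℝ) ^ 2 := by
        have h4 : (n : ℝ) ≤ (n : ℝ) ^ 2 := by nlinarith
        have h5 : (n : ℝ) ^ 2 ≤ m * (n : ℝ) ^ 2 := by nlinarith [sq_nonneg (n : ℝ)]
        linarith
      have h6 : (n : ℝ) * (R : ℝ) ^ 2 ≤ m * (n : ℝ) ^ 2 * Q :=
        mul_le_mul h3 hQR (by positivity) (by positivity)
      calc f * ((n : ℝ) * (R : ℝ) ^ 2) ≤ f * (m * (n : ℝ) ^ 2 * Q) :=
            mul_le_mul_of_nonneg_left h6 (by linarith)
        _ = _ := by ring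
    calc θ * a * (n : ℝ) ^ 2 * (m * (4 * ((L : ℝ) * m * m * R)) ^ 2) +
        f * ((n : ℝ) * (R : ℝ) ^ 2)
        ≤ θ * a * (n : ℝ) ^ 2 * (m * (4 * ((L : ℝ) * m * m * R)) ^ 2) +
          f * (m * (n : ℝ) ^ 2) * Q := by linarith
      _ = Q / (BB a f L) ^ n * (C * m * (n : ℝ) ^ 2 * (BB a f L) ^ n) := by
          rw [hC, hQ]
          field_simp
          ring
      _ < _ := mul_lt_mul_of_pos_left hlt (by positivity)
  have hcod : ∀ x y : ℤ × ℤ, x ≠ y → (((LatKK.FF L m R).filter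
      (fun p => x ∈ LatKK.SS L m R p ∧ y ∈ LatKK.SS L m R p)).card : ℝ) ≤ (n : ℝ) ^ 2 :=
    fun x y hxy => by exact_mod_cast LatKK.codeg L m R hL hm x y hxy
  have hdeg : ∀ y : ℤ × ℤ, (((LatKK.FF L m R).filter
      (fun p => y ∈ LatKK.SS L m R p)).card : ℝ) ≤ (n : ℝ) * (R : ℝ) ^ 2 :=
    fun y => by exact_mod_cast degree L m R hL hm y
  have hXL : ∀ y ∈ LatKK.UU L m R, (LatKK.XX L m R y).card ≤ L :=
    fun y hy => (LatKK.card_XX L m R hL hm hR y hy).le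
  have hθL : (f : ℝ) + L - 1 ≤ θ * ((a : ℝ) - L + 1) := by
    rw [hθ, div_mul_cancel₀ _ hθden.ne']
  have gen : ∀ (b₀ b₁ p : ℕ), p < 2 → BGame.bias b₀ b₁ p = f → BGame.bias b₀ b₁ (1 - p) = a →
      CanForce b₀ b₁ N p (1 - p) Cls.parallelogram (L * m) := by
    intro b₀ b₁ p hp h1 h2
    obtain ⟨σ, s1, s2⟩ := Forcer.forcer_win (board N) b₀ b₁ p hp f a h1 h2 hf
      (LatKK.UU L m R) (LatKK.XX L m R) (LatKK.FF L m R) (LatKK.SS L m R) θ ((n : ℝ) ^ 2)
      ((n : ℝ) * (R : ℝ) ^ 2) L hθ0.le (by positivity) (by positivity) hL hLa hθL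
      (LatKK.disj_XX L m R hL hm hR) (LatKK.XX_subset L m R N hL hm hR hle) hXL
      (LatKK.SS_subset L m R hL hm hR) hcod hdeg hbig
    refine ⟨σ, ?_, ?_⟩
    · intro h hp hf hl hne
      exact s1 h hp hf hl hne
    · intro h hp hf hu
      obtain ⟨q, hqF, hown⟩ := s2 h hp hf hu
      refine ⟨q.1, (LatKK.Hh L m R - q.2.1, - q.2.2), (m * q.2.1, m * q.2.2),
        LatKK.lattice_indep L m R hL hm hR q hqF, trivial, ?_⟩
      intro i j hi hj
      exact own_mem h (LatKK.lattice_mem L m R hL hm hR q _ hown i j hi hj)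
  exact ⟨gen a f 1 (by norm_num) rfl rfl, gen f a 0 (by norm_num) rfl rfl⟩

end Pool.Agent.W315.ForcerLat
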