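import Mathlib

/-!
Biased achievement and avoidance games on the `N × N` board: the definitions.
-/

set_option autoImplicit false
set_option linter.unusedSectionVars false
set_option linter.unusedVariables false

namespace Pool.Agent.W315.Lat

open Finset

/-- The seven classes of lattices. -/
inductive Cls
  | alignedSquare
  | alignedRectangle
  | tiltedSquare
  | tiltedRectangle
  | rhombus
  | parallelogram
  | areaOne

/-- The condition which the class puts on the two (linearly independent) steps `v`, `w`. -/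
def Adm : Cls → ℤ × ℤ → ℤ × ℤ → Prop
  | Cls.alignedSquare, v, w => ∃ d : ℤ, 1 ≤ d ∧ v = (d, 0) ∧ w = (0, d)
  | Cls.alignedRectangle, v, w => ∃ d e : ℤ, 1 ≤ d ∧ 1 ≤ e ∧ v = (d, 0) ∧ w = (0, e)
  | Cls.tiltedSquare, v, w => w = (-v.2, v.1)
  | Cls.tiltedRectangle, v, w => v.1 * w.1 + v.2 * w.2 = 0
  | Cls.rhombus, v, w => v.1 ^ 2 + v.2 ^ 2 = w.1 ^ 2 + w.2 ^ 2
  | Cls.parallelogram, _, _ => True
  | Cls.areaOne, v, w => |v.1 * w.2 - v.2 * w.1| = 1

/-- The set `S` contains all points of some `q × q` lattice of class `X`. -/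
def HasLattice (X : Cls) (q : ℕ) (S : Set (ℤ × ℤ)) : Prop :=
  ∃ u v w : ℤ × ℤ, LinearIndependent ℤ ![v, w] ∧ Adm X v w ∧
    ∀ k l : ℕ, k < q → l < q → u + (k : ℤ) • v + (l : ℤ) • w ∈ S

/-- The `N × N` board. -/
noncomputable def board (N : ℕ) : Finset (ℤ × ℤ) := Icc (1 : ℤ) N ×ˢ Icc (1 : ℤ) N

/-- A move is the set of the points claimed in it. A play `h` is the list of its moves; the moves
number `0, 2, 4, ...` are made by the first player and the moves number `1, 3, 5, ...` by the second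
player. `unclaimed N h` is the set of the points of the board not claimed in `h`. -/
noncomputable def unclaimed (N : ℕ) (h : List (Finset (ℤ × ℤ))) : Finset (ℤ × ℤ) :=
  (board N).filter (fun x => ∀ m ∈ h, x ∉ m)

/-- A legal move after `h` of a player with bias `k` consists of `k` unclaimed points or, if fewer
than `k` points are unclaimed, of all of them (at least one). -/
def IsLegalMove (k N : ℕ) (h : List (Finset (ℤ × ℤ))) (m : Finset (ℤ × ℤ)) : Prop :=
  m ⊆ unclaimed N h ∧ m.card = min k (unclaimed N h).card ∧ m.Nonempty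

/-- The bias of the player who makes the move number `i`: `b₀` for the first and `b₁` for the second
player. -/
def bias (b₀ b₁ i : ℕ) : ℕ := if i % 2 = 0 then b₀ else b₁

/-- All moves of `h` are legal. -/
def IsPlay (b₀ b₁ N : ℕ) (h : List (Finset (ℤ × ℤ))) : Prop :=
  ∀ (i : ℕ) (hi : i < h.length), IsLegalMove (bias b₀ b₁ i) N (h.take i) (h[i]'hi)

/-- The player making the moves with number congruent to `p` modulo 2 follows `σ`: each of these
moves is the value of `σ` at the list of the earlier moves. -/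
def Follows (p : ℕ) (σ : List (Finset (ℤ × ℤ)) → Finset (ℤ × ℤ))
    (h : List (Finset (ℤ × ℤ))) : Prop :=
  ∀ (i : ℕ) (hi : i < h.length), i % 2 = p → h[i]'hi = σ (h.take i)

/-- `σ` is a strategy of the player `p` (`p = 0`: first player, `p = 1`: second player): it gives a
legal move in every position in which the player is to move and which can arise when he follows it. -/
def IsStrategy (b₀ b₁ N p : ℕ) (σ : List (Finset (ℤ × ℤ)) → Finset (ℤ × ℤ)) : Prop :=
  ∀ h : List (Finset (ℤ × ℤ)), IsPlay b₀ b₁ N h → Follows p σ h → h.length % 2 = p →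
    (unclaimed N h).Nonempty → IsLegalMove (bias b₀ b₁ p) N h (σ h)

/-- The points claimed by the player `r` in the play `h`. -/
def Owned (r : ℕ) (h : List (Finset (ℤ × ℤ))) : Set (ℤ × ℤ) :=
  {x | ∃ (i : ℕ) (hi : i < h.length), i % 2 = r ∧ x ∈ h[i]'hi}

/-- In the game in which the first player has bias `b₀` and the second player has bias `b₁`, the
player `p` has a strategy with which, at the end of every play, the player `r` owns all points of
some `q × q` lattice of class `X`. -/
def CanForce (b₀ b₁ N p r : ℕ) (X : Cls) (q : ℕ) : Prop :=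
  ∃ σ : List (Finset (ℤ × ℤ)) → Finset (ℤ × ℤ), IsStrategy b₀ b₁ N p σ ∧
    ∀ h : List (Finset (ℤ × ℤ)), IsPlay b₀ b₁ N h → Follows p σ h → unclaimed N h = ∅ →
      HasLattice X q (Owned r h)

/-- Maker (moving first) wins the `(m:b)` achievement game with `q × q` lattices of class `X`. -/
def MakerWins (m b N : ℕ) (X : Cls) (q : ℕ) : Prop := CanForce m b N 0 0 X q

/-- Forcer wins the `(a:f)` avoidance game with `q × q` lattices of class `X`, when Avoider moves
first. -/
def ForcerWinsSecond (a f N : ℕ) (X : Cls) (q : ℕ) : Prop := CanForce a f N 1 0 X q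

/-- Forcer wins the `(a:f)` avoidance game with `q × q` lattices of class `X`, when Forcer moves
first. -/
def ForcerWinsFirst (a f N : ℕ) (X : Cls) (q : ℕ) : Prop := CanForce f a N 0 1 X q

/-- `Λ` -/
noncomputable def Lam (m b N : ℕ) : ℝ :=
  if b < m then
    Real.logb (((m : ℝ) + b) / m) N + 2 * Real.logb ((m : ℝ) / ((m : ℝ) - b)) N
  else Real.logb (((m : ℝ) + b) / m) N

/-- `Λ'` -/
noncomputable def Lam' (m b N : ℕ) : ℝ :=
  if b < m then
    2 * Real.logb (((m : ℝ) + b) / m) N + 2 * Real.logb ((m : ℝ) / ((m : ℝ) - b)) N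
  else 2 * Real.logb (((m : ℝ) + b) / m) N

/-- The function `g_X(N)`. -/
noncomputable def gX (m b : ℕ) : Cls → ℕ → ℝ
  | Cls.alignedSquare, N => Real.sqrt (Lam m b N)
  | Cls.parallelogram, N => 2 * Real.sqrt (Lam m b N)
  | _, N => Real.sqrt (Lam' m b N)

/-- The function `h_X(N)`. -/
noncomputable def hX (a f : ℕ) : Cls → ℕ → ℝ
  | Cls.alignedSquare, N => Real.sqrt (Real.logb (((a : ℝ) + f) / a) N)
  | Cls.parallelogram, N => 2 * Real.sqrt (Real.logb (((a : ℝ) + f) / a) N)
  | _, N => Real.sqrt (2 * Real.logb (((a : ℝ) + f) / a) N)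

/-- With `W N q` meaning that the relevant player wins on the `N × N` board with size `q`: the
largest `q ≥ 2` with `W N q` is `⌊g N + ε N⌋` for all large `N`, for some `ε → 0`. -/
def Formula (W : ℕ → ℕ → Prop) (g : ℕ → ℝ) : Prop :=
  ∃ ε : ℕ → ℝ, Filter.Tendsto ε Filter.atTop (nhds 0) ∧
    ∀ᶠ N : ℕ in Filter.atTop, ∃ A : ℕ, IsGreatest {q : ℕ | 2 ≤ q ∧ W N q} A ∧
      (A : ℤ) = ⌊g N + ε N⌋

/-- If for some `c > d` and all large `N` the player wins with some `q ≥ c √(log₂ N)`, then the
formula fails for `g N = d √(log₂ N)`. -/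
theorem not_formula (W : ℕ → ℕ → Prop) (g : ℕ → ℝ) (c d : ℝ) (hcd : d < c) (hc : 0 < c)
    (hg : ∀ N, g N = d * Real.sqrt (Real.logb 2 N))
    (hW : ∃ N₀ : ℕ, ∀ N : ℕ, N₀ ≤ N → ∃ q : ℕ, c * Real.sqrt (Real.logb 2 N) ≤ q ∧ W N q) :
    ¬ Formula W g := by
  rintro ⟨ε, hε, hev⟩
  obtain ⟨N₀, hN₀⟩ := hW
  have h1 : ∀ᶠ N : ℕ in Filter.atTop, ε N < 1 := hε.eventually_lt_const (by norm_num)
  have hs : Filter.Tendsto (fun N : ℕ => Real.sqrt (Real.logb 2 N)) Filter.atTop Filter.atTop := by
    refine Real.tendsto_sqrt_atTop.comp ?_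
    have : Filter.Tendsto (fun x : ℝ => Real.logb 2 x) Filter.atTop Filter.atTop :=
      Real.tendsto_logb_atTop (by norm_num)
    exact this.comp tendsto_natCast_atTop_atTop
  have h2 : ∀ᶠ N : ℕ in Filter.atTop, max (1 / (c - d)) (2 / c) ≤ Real.sqrt (Real.logb 2 N) :=
    hs.eventually_ge_atTop _
  obtain ⟨N, hN1, hN2, hN3, hN4⟩ := (h1.and (h2.and (hev.and
    (Filter.eventually_ge_atTop N₀)))).exists
  obtain ⟨A, hA, hAf⟩ := hN3
  obtain ⟨q, hq, hWq⟩ := hN₀ N hN4
  have hq2 : (2 : ℝ) ≤ q := by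
    have h3 : 2 / c ≤ Real.sqrt (Real.logb 2 N) := (le_max_right _ _).trans hN2
    rw [div_le_iff₀ hc] at h3
    linarith
  have hq2' : 2 ≤ q := by exact_mod_cast hq2
  have hle : q ≤ A := hA.2 ⟨hq2', hWq⟩
  have h4 : (A : ℝ) ≤ g N + ε N := by
    have := Int.floor_le (g N + ε N)
    rw [← hAf] at this
    exact_mod_cast this
  have h5 : (q : ℝ) ≤ A := by exact_mod_cast hle
  rw [hg N] at h4
  have h6 : 1 / (c - d) ≤ Real.sqrt (Real.logb 2 N) := (le_max_left _ _).trans hN2
  rw [div_le_iff₀ (by linarith)] at h6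
  nlinarith

end Pool.Agent.W315.Lat
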