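import Mathlib

set_option autoImplicit false

/-!
From a rule on positions to a memoryless strategy of Breaker in the (2:2) game.
-/

namespace Pool.Agent.W315

open Finset

theorem memoryless {α : Type*} [DecidableEq α] {V : Finset α}
    (Good : Finset α → Finset α → Prop) (Bad : Finset α → Prop) (h0 : Good ∅ ∅)
    (hr : ∀ M B m : Finset α, M ⊆ V → B ⊆ V → Disjoint M B → Good M B →
      m ⊆ V \ (M ∪ B) → m.card ≤ 2 →
      ∃ b : Finset α, b ⊆ V \ (M ∪ m ∪ B) ∧
        b.card = min 2 (V \ (M ∪ m ∪ B)).card ∧ Good (M ∪ m) (B ∪ b))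
    (hmono : ∀ M M' : Finset α, M ⊆ M' → Bad M → Bad M')
    (hend : ∀ M B : Finset α, M ⊆ V → B ⊆ V → Disjoint M B → Good M B →
      V \ (M ∪ B) = ∅ → ¬ Bad M) :
    ∃ σ : Finset α → Finset α → Finset α,
      (∀ X Y : Finset α, X ⊆ V → Y ⊆ V → Disjoint X Y →
        σ X Y ⊆ V \ (X ∪ Y) ∧ (σ X Y).card = min 2 (V \ (X ∪ Y)).card) ∧
      ∀ M B : ℕ → Finset α, M 0 = ∅ → B 0 = ∅ →
        (∀ k : ℕ, M k ⊆ M (k + 1) ∧
          M (k + 1) \ M k ⊆ V \ (M k ∪ B k) ∧
          (M (k + 1) \ M k).card = min 2 (V \ (M k ∪ B k)).card ∧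
          B (k + 1) = B k ∪ σ (M (k + 1)) (B k)) →
        ∀ k : ℕ, ¬ Bad (M k) := by
  classical
  let Q : Finset α → Finset α → Finset α → Prop := fun X Y b =>
    b ⊆ V \ (X ∪ Y) ∧ b.card = min 2 (V \ (X ∪ Y)).card
  have hQ : ∀ X Y, ∃ b, Q X Y b := by
    intro X Y
    obtain ⟨b, hb1, hb2⟩ := exists_subset_card_eq (s := V \ (X ∪ Y))
      (n := min 2 (V \ (X ∪ Y)).card) (min_le_right _ _)
    exact ⟨b, hb1, hb2⟩
  let σ : Finset α → Finset α → Finset α := fun X Y =>
    if H : ∃ b, Q X Y b ∧ Good X (Y ∪ b) then H.choose else (hQ X Y).choose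
  have hσ1 : ∀ X Y, Q X Y (σ X Y) := by
    intro X Y
    by_cases H : ∃ b, Q X Y b ∧ Good X (Y ∪ b)
    · have : σ X Y = H.choose := dif_pos H
      rw [this]
      exact H.choose_spec.1
    · have : σ X Y = (hQ X Y).choose := dif_neg H
      rw [this]
      exact (hQ X Y).choose_spec
  have hσ2 : ∀ X Y, (∃ b, Q X Y b ∧ Good X (Y ∪ b)) → Good X (Y ∪ σ X Y) := by
    intro X Y H
    have : σ X Y = H.choose := dif_pos H
    rw [this]
    exact H.choose_spec.2
  refine ⟨σ, fun X Y _ _ _ => hσ1 X Y, ?_⟩
  intro M B hM0 hB0 hst k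
  have hinv : ∀ k, M k ⊆ V ∧ B k ⊆ V ∧ Disjoint (M k) (B k) ∧ Good (M k) (B k) := by
    intro k
    induction k with
    | zero =>
      rw [hM0, hB0]
      exact ⟨empty_subset _, empty_subset _, disjoint_empty_left _, h0⟩
    | succ k ih =>
      obtain ⟨hM, hB, hD, hG⟩ := ih
      obtain ⟨h1, h2, h3, h4⟩ := hst k
      have hMe : M (k + 1) = M k ∪ (M (k + 1) \ M k) := by
        rw [union_sdiff_of_subset h1]
      have hM' : M (k + 1) ⊆ V := by
        rw [hMe]
        exact union_subset hM (h2.trans sdiff_subset)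
      obtain ⟨b, hb1, hb2, hb3⟩ := hr (M k) (B k) (M (k + 1) \ M k) hM hB hD hG h2
        (by rw [h3]; exact min_le_left _ _)
      rw [← hMe] at hb1 hb2 hb3
      have hg := hσ2 (M (k + 1)) (B k) ⟨b, ⟨hb1, hb2⟩, hb3⟩
      have hq := hσ1 (M (k + 1)) (B k)
      have hD1 : Disjoint (M (k + 1)) (B k) := by
        rw [hMe, disjoint_union_left]
        refine ⟨hD, ?_⟩
        rw [disjoint_left]
        intro x hx hx'
        have := h2 hx
        simp only [mem_sdiff, mem_union, not_or] at this
        exact this.2.2 hx'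
      refine ⟨hM', ?_, ?_, ?_⟩
      · rw [h4]
        exact union_subset hB (hq.1.trans sdiff_subset)
      · rw [h4, disjoint_union_right]
        refine ⟨hD1, ?_⟩
        rw [disjoint_right]
        intro x hx hx'
        have := hq.1 hx
        simp only [mem_sdiff, mem_union, not_or] at this
        exact this.2.1 hx'
      · rw [h4]
        exact hg
  -- the number of free points decreases
  have hfree : ∀ k, V \ (M k ∪ B k) = ∅ ∨ k ≤ (M k).card := by
    intro k
    induction k with
    | zero => exact Or.inr (Nat.zero_le _)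
    | succ k ih =>
      obtain ⟨h1, h2, h3, h4⟩ := hst k
      rcases ih with h | h
      · left
        rw [sdiff_eq_empty_iff_subset] at h ⊢
        refine h.trans (union_subset_union h1 ?_)
        rw [h4]
        exact subset_union_left
      · by_cases hne : V \ (M k ∪ B k) = ∅
        · left
          rw [sdiff_eq_empty_iff_subset] at hne ⊢
          refine hne.trans (union_subset_union h1 ?_)
          rw [h4]
          exact subset_union_left
        · right
          have hpos : 0 < (V \ (M k ∪ B k)).card :=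
            card_pos.2 (nonempty_iff_ne_empty.2 hne)
          have hc : (M (k + 1)).card = (M k).card + (M (k + 1) \ M k).card := by
            rw [card_sdiff_of_subset h1]
            have := card_le_card h1
            omega
          omega
  have hMmono : ∀ i j, i ≤ j → M i ⊆ M j := by
    intro i j hij
    induction hij with
    | refl => exact Subset.rfl
    | step _ ih => exact ih.trans (hst _).1
  intro hbad
  set K := max k (V.card + 1) with hK
  have hKfull : V \ (M K ∪ B K) = ∅ := by
    rcases hfree K with h | h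
    · exact h
    · exfalso
      have h1 : (M K).card ≤ V.card := card_le_card (hinv K).1
      have h2 : V.card + 1 ≤ K := le_max_right _ _
      omega
  obtain ⟨h1, h2, h3, h4⟩ := hinv K
  exact hend (M K) (B K) h1 h2 h3 h4 hKfull (hmono _ _ (hMmono k K (le_max_left _ _)) hbad)

end Pool.Agent.W315
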