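import Pool.Agent.W510.CG.Stm

/-!
# Project CG: infinitely many branches, and the centre of three ends
-/

set_option autoImplicit false

namespace Pool.Agent.W315.CGInfCtr

open Pool.Agent.W510.CG

theorem main : S_INF := by
  intro L _ _ _ γ S
  classical
  obtain ⟨f, l⟩ := γ
  have hz : ∃ z : ℤ, some z ∉ S := by
    by_contra hcon
    push Not at hcon
    have hfin : (Set.range (some : ℤ → Option ℤ)).Finite := by
      apply S.finite_toSet.subset
      rintro _ ⟨z, rfl⟩
      exact hcon z
    have := Set.infinite_range_of_injective (Option.some_injective ℤ)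
    exact this hfin
  obtain ⟨z, hz⟩ := hz
  refine ⟨some (f + Finsupp.single l (z - f l)), ?_⟩
  have : br (f, l) (some (f + Finsupp.single l (z - f l))) = some z := by
    rw [br_eq_some]
    constructor
    · intro μ hμ
      simp only at hμ ⊢
      simp [ne_of_lt hμ]
    · simp
  rw [this]
  exact hz

section

variable {L : Type} [AddCommGroup L] [LinearOrder L] [IsOrderedAddMonoid L]

def P (a b c : Pt L) : Prop :=
  ∃ γ : (L →₀ ℤ) × L, br γ a ≠ br γ b ∧ br γ a ≠ br γ c ∧ br γ b ≠ br γ c

theorem P_swap12 {a b c : Pt L} (h : P a b c) : P b a c := by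
  obtain ⟨γ, h1, h2, h3⟩ := h
  exact ⟨γ, h1.symm, h3, h2⟩

theorem P_swap23 {a b c : Pt L} (h : P a b c) : P a c b := by
  obtain ⟨γ, h1, h2, h3⟩ := h
  exact ⟨γ, h2, h1, h3.symm⟩

theorem agree {x y : L →₀ ℤ} (h : x ≠ y) : x (v (x - y)) ≠ y (v (x - y)) ∧
    ∀ μ : L, v (x - y) < μ → y μ = x μ := by
  have h0 : x - y ≠ 0 := sub_ne_zero.2 h
  obtain ⟨h1, h2⟩ := v_spec h0
  constructor
  · intro h3
    apply h1
    rw [Finsupp.sub_apply, h3, sub_self]
  · intro μ hμ
    have := h2 μ hμ
    rw [Finsupp.sub_apply, sub_eq_zero] at this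
    exact this.symm

theorem br_left {x y : L →₀ ℤ} (h : x ≠ y) :
    br (x, v (x - y)) (some x) = some (x (v (x - y))) ∧
    br (x, v (x - y)) (some y) = some (y (v (x - y))) := by
  constructor
  · exact br_some_of (fun μ _ => rfl)
  · exact br_some_of (fun μ hμ => (agree h).2 μ hμ)

theorem P_none {x y : L →₀ ℤ} (h : x ≠ y) : P (some x) (some y) none := by
  refine ⟨(x, v (x - y)), ?_, ?_, ?_⟩
  · rw [(br_left h).1, (br_left h).2]
    intro he
    exact (agree h).1 (Option.some_injective _ he)
  · rw [(br_left h).1, br_none]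
    simp
  · rw [(br_left h).2, br_none]
    simp

theorem ne_of_agree {x z : L →₀ ℤ} {l : L} (hxz : x ≠ z) (hl : l ≤ v (x - z))
    (h : ∀ μ : L, l < μ → z μ = x μ) : x l ≠ z l := by
  obtain ⟨h1, _⟩ := agree hxz
  rcases hl.lt_or_eq with hlt | heq
  · exact absurd (h _ hlt).symm h1
  · rw [heq]
    exact h1

theorem P_fin {x y z : L →₀ ℤ} (hxy : x ≠ y) (hxz : x ≠ z) (hyz : y ≠ z)
    (h1 : v (x - y) ≤ v (x - z)) (h2 : v (x - y) ≤ v (y - z)) :
    P (some x) (some y) (some z) := by
  refine ⟨(x, v (x - y)), ?_, ?_, ?_⟩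
  · rw [(br_left hxy).1, (br_left hxy).2]
    intro he
    exact (agree hxy).1 (Option.some_injective _ he)
  · rw [(br_left hxy).1]
    by_cases hz : ∀ μ : L, v (x - y) < μ → z μ = x μ
    · rw [br_some_of (γ := (x, v (x - y))) hz]
      intro he
      exact ne_of_agree hxz h1 hz (Option.some_injective _ he)
    · rw [br_some_not (γ := (x, v (x - y))) hz]
      simp
  · rw [(br_left hxy).2]
    by_cases hz : ∀ μ : L, v (x - y) < μ → z μ = x μ
    · rw [br_some_of (γ := (x, v (x - y))) hz]
      intro he
      have hz' : ∀ μ : L, v (x - y) < μ → z μ = y μ := by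
        intro μ hμ
        rw [hz μ hμ, (agree hxy).2 μ hμ]
      exact ne_of_agree hyz h2 hz' (Option.some_injective _ he)
    · rw [br_some_not (γ := (x, v (x - y))) hz]
      simp

theorem P_fin' {x y z : L →₀ ℤ} (hxy : x ≠ y) (hxz : x ≠ z) (hyz : y ≠ z) :
    P (some x) (some y) (some z) := by
  have e1 : v (y - x) = v (x - y) := by rw [← neg_sub, v_neg]
  have e2 : v (z - x) = v (x - z) := by rw [← neg_sub, v_neg]
  have e3 : v (z - y) = v (y - z) := by rw [← neg_sub, v_neg]
  rcases le_total (v (x - y)) (v (x - z)) with h1 | h1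
  · rcases le_total (v (x - y)) (v (y - z)) with h2 | h2
    · exact P_fin hxy hxz hyz h1 h2
    · have := P_fin hyz hxy.symm hxz.symm (by rw [e1]; exact h2) (by rw [e2]; exact h2.trans h1)
      exact P_swap12 (P_swap23 this)
  · rcases le_total (v (x - z)) (v (y - z)) with h2 | h2
    · exact P_swap23 (P_fin hxz hxy hyz.symm h1 (by rw [e3]; exact h2))
    · have := P_fin hyz hxy.symm hxz.symm (by rw [e1]; exact h2.trans h1) (by rw [e2]; exact h2)
      exact P_swap12 (P_swap23 this)

end

theorem main1 : S_CTR := by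
  intro L _ _ _ a b c hab hac hbc
  show P a b c
  rcases a with _ | x
  · rcases b with _ | y
    · exact absurd rfl hab
    · rcases c with _ | z
      · exact absurd rfl hac
      · have h : y ≠ z := fun h => hbc (by rw [h])
        exact P_swap12 (P_swap23 (P_none h))
  · rcases b with _ | y
    · rcases c with _ | z
      · exact absurd rfl hbc
      · have h : x ≠ z := fun h => hac (by rw [h])
        exact P_swap23 (P_none h)
    · have hxy : x ≠ y := fun h => hab (by rw [h])
      rcases c with _ | z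
      · exact P_none hxy
      · have hxz : x ≠ z := fun h => hac (by rw [h])
        have hyz : y ≠ z := fun h => hbc (by rw [h])
        exact P_fin' hxy hxz hyz

end Pool.Agent.W315.CGInfCtr
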