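import Pool.Agent.W894.HT.Gr

/-!
# Project HT: the list of choices, and injectivity of the path of a choice
-/

namespace Pool.Agent.W315.HTNC

open Pool.Agent.W894.HT

/-- all Boolean lists of length `n` -/
def allB : ℕ → List (List Bool)
  | 0 => [[]]
  | n + 1 => (allB n).map (fun l => false :: l) ++ (allB n).map (fun l => true :: l)

theorem mem_allB (n : ℕ) (l : List Bool) : l ∈ allB n ↔ l.length = n := by
  induction n generalizing l with
  | zero => simp [allB]
  | succ n ih =>
    simp only [allB, List.mem_append, List.mem_map]
    constructor
    · rintro (⟨a, ha, rfl⟩ | ⟨a, ha, rfl⟩)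
      · simp [(ih a).1 ha]
      · simp [(ih a).1 ha]
    · intro h
      cases l with
      | nil => simp at h
      | cons b l =>
        have hl : l.length = n := by simpa using h
        cases b
        · left
          exact ⟨l, (ih l).2 hl, rfl⟩
        · right
          exact ⟨l, (ih l).2 hl, rfl⟩

theorem nodup_allB (n : ℕ) : (allB n).Nodup := by
  induction n with
  | zero => simp [allB]
  | succ n ih =>
    rw [allB, List.nodup_append']
    refine ⟨ih.map (fun a b h => (List.cons.inj h).2), ih.map (fun a b h => (List.cons.inj h).2), ?_⟩
    intro x hx hx'
    obtain ⟨a, _, rfl⟩ := List.mem_map.1 hx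
    obtain ⟨b, _, hb⟩ := List.mem_map.1 hx'
    have := (List.cons.inj hb).1
    simp at this

theorem choices_eq (S : Stg) : choices S = (allB S.length).map (lbs S) := by
  induction S with
  | nil => simp [choices, allB, lbs]
  | cons p S ih =>
    obtain ⟨P, Q⟩ := p
    simp only [choices, List.length_cons, allB, List.map_append, List.map_map, ih]
    congr 1

theorem mainNC : S_NC := by
  intro S
  classical
  unfold nc
  rw [choices_eq, List.filter_map, List.length_map]
  have h : Nat.card {bs : List Bool // bs.length = S.length ∧ (lbs S bs).Nodup} =
      (((allB S.length).filter ((fun c => decide c.Nodup) ∘ lbs S)).toFinset).card := by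
    apply Nat.subtype_card
    intro x
    simp only [List.mem_toFinset, List.mem_filter, mem_allB, Function.comp, decide_eq_true_eq]
  rw [h, List.toFinset_card_of_nodup]
  exact (nodup_allB _).filter _

theorem pth_inj (S : Stg) : ∀ (k : ℕ) (bs bs' : List Bool), bs.length = S.length →
    bs'.length = S.length → pth k S bs = pth k S bs' → bs = bs' := by
  induction S with
  | nil =>
    intro k bs bs' h h' _
    rw [List.length_nil, List.length_eq_zero_iff] at h h'
    rw [h, h']
  | cons p S ih =>
    obtain ⟨P, Q⟩ := p
    intro k bs bs' h h' he
    cases bs with
    | nil => simp at h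
    | cons b bs =>
      cases bs' with
      | nil => simp at h'
      | cons b' bs' =>
        have hl : bs.length = S.length := by simpa using h
        have hl' : bs'.length = S.length := by simpa using h'
        simp only [pth] at he
        have he1 := (List.cons.inj he).2
        have hb : b = b' := by
          simp only [word, List.cons_append] at he1
          have h2 := (List.cons.inj he1).1
          simp only [rv, Prod.mk.injEq] at h2
          exact h2.2.2.2.2
        subst hb
        have he2 := List.append_cancel_left he1
        rw [ih (k + 1) bs bs' hl hl' he2]

theorem mainI : S_INJ := by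
  intro S bs bs' h h' he
  exact pth_inj S 0 bs bs' h h' he

end Pool.Agent.W315.HTNC
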