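import Pool.Agent.LatKK.Game

/-!
The biased game on a finite board: from positions to strategies, for either player.
-/

set_option autoImplicit false
set_option linter.unusedSectionVars false
set_option linter.unusedVariables false

namespace Pool.Agent.W315.BGame

open Finset
open Pool.Agent.LatKK (free own free_append getElem_append_lt' take_append' own_subset
  own_append_same own_append_other free_eq free_subset)

variable {β : Type*} [DecidableEq β]

/-- the bias of the player making the move number `i` -/
def bias (b₀ b₁ i : ℕ) : ℕ := if i % 2 = 0 then b₀ else b₁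

/-- legal move of a player with bias `k` -/
def IsMove (E : Finset β) (k : ℕ) (h : List (Finset β)) (m : Finset β) : Prop :=
  m ⊆ free E h ∧ m.card = min k (free E h).card ∧ m.Nonempty

/-- all moves of the play are legal -/
def Legal (E : Finset β) (b₀ b₁ : ℕ) (h : List (Finset β)) : Prop :=
  ∀ (i : ℕ) (hi : i < h.length), IsMove E (bias b₀ b₁ i) (h.take i) (h[i]'hi)

/-- the moves with number congruent to `p` modulo 2 are made according to `σ` -/
def Follows (p : ℕ) (σ : List (Finset β) → Finset β) (h : List (Finset β)) : Prop :=
  ∀ (i : ℕ) (hi : i < h.length), i % 2 = p → h[i]'hi = σ (h.take i)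

theorem Legal_append (E : Finset β) (b₀ b₁ : ℕ) (h : List (Finset β)) (m : Finset β)
    (H : Legal E b₀ b₁ (h ++ [m])) :
    Legal E b₀ b₁ h ∧ IsMove E (bias b₀ b₁ h.length) h m := by
  constructor
  · intro i hi
    have hi' : i < (h ++ [m]).length := by simp; omega
    have := H i hi'
    rw [getElem_append_lt' h m i hi hi', take_append' h m i hi.le] at this
    exact this
  · have hi' : h.length < (h ++ [m]).length := by simp
    have := H h.length hi'
    rw [take_append' h m _ le_rfl, List.take_length] at this
    have e : (h ++ [m])[h.length]'hi' = m := by simp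
    rw [e] at this
    exact this

theorem Follows_append (p : ℕ) (σ : List (Finset β) → Finset β) (h : List (Finset β))
    (m : Finset β) (H : Follows p σ (h ++ [m])) :
    Follows p σ h ∧ (h.length % 2 = p → m = σ h) := by
  constructor
  · intro i hi hi2
    have hi' : i < (h ++ [m]).length := by simp; omega
    have := H i hi' hi2
    rw [getElem_append_lt' h m i hi hi', take_append' h m i hi.le] at this
    exact this
  · intro h2
    have hi' : h.length < (h ++ [m]).length := by simp
    have := H h.length hi' h2
    rw [take_append' h m _ le_rfl, List.take_length] at this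
    have e : (h ++ [m])[h.length]'hi' = m := by simp
    rw [e] at this
    exact this

theorem own_disjoint (E : Finset β) (b₀ b₁ : ℕ) (h : List (Finset β)) (H : Legal E b₀ b₁ h) :
    Disjoint (own E 0 h) (own E 1 h) := by
  induction h using List.reverseRecOn with
  | nil => simp [own]
  | append_singleton h m ih =>
    obtain ⟨h1, h2⟩ := Legal_append E b₀ b₁ h m H
    have hd := ih h1
    have hm : m ⊆ free E h := h2.1
    have hmE : m ⊆ E := hm.trans (free_subset E h)
    rw [free_eq] at hm
    have hm0 : Disjoint m (own E 0 h) := by
      rw [Finset.disjoint_left]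
      intro e he he'
      have := hm he
      simp only [mem_sdiff, mem_union, not_or] at this
      exact this.2.1 he'
    have hm1 : Disjoint m (own E 1 h) := by
      rw [Finset.disjoint_left]
      intro e he he'
      have := hm he
      simp only [mem_sdiff, mem_union, not_or] at this
      exact this.2.2 he'
    rcases Nat.mod_two_eq_zero_or_one h.length with h4 | h4
    · rw [own_append_same E 0 h m h4 hmE, own_append_other E 1 h m (by omega)]
      exact Finset.disjoint_union_left.2 ⟨hd, hm1⟩
    · rw [own_append_same E 1 h m h4 hmE, own_append_other E 0 h m (by omega)]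
      exact Finset.disjoint_union_right.2 ⟨hd, hm0.symm⟩

/-- Strategies of the player `p` from an invariant `Good M B` (own points, points of the opponent)
of the positions in which he is to move. `c` is his own bias, `d` that of the opponent. -/
theorem exists_strategy (E : Finset β) (b₀ b₁ p : ℕ) (hp : p < 2)
    (hc : 1 ≤ bias b₀ b₁ p) (Good : Finset β → Finset β → Prop)
    (W : Finset β → Finset β → Prop)
    (h0 : p = 0 → Good ∅ ∅)
    (h0' : p = 1 → ∀ b : Finset β, b ⊆ E → b.card = min b₀ E.card → Good ∅ b)
    (hstep : ∀ M B : Finset β, M ⊆ E → B ⊆ E → Disjoint M B → Good M B →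
      (E \ (M ∪ B)).Nonempty → ∃ m : Finset β, m ⊆ E \ (M ∪ B) ∧
        m.card = min (bias b₀ b₁ p) (E \ (M ∪ B)).card ∧
        ∀ b : Finset β, b ⊆ E \ (M ∪ B ∪ m) →
          b.card = min (bias b₀ b₁ (1 - p)) (E \ (M ∪ B ∪ m)).card →
          Good (M ∪ m) (B ∪ b))
    (hend : ∀ M B : Finset β, M ⊆ E → B ⊆ E → Disjoint M B → Good M B →
      E \ (M ∪ B) = ∅ → W M B) :
    ∃ σ : List (Finset β) → Finset β,
      (∀ h : List (Finset β), Legal E b₀ b₁ h → Follows p σ h → h.length % 2 = p →
        (free E h).Nonempty → IsMove E (bias b₀ b₁ p) h (σ h)) ∧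
      (∀ h : List (Finset β), Legal E b₀ b₁ h → Follows p σ h → free E h = ∅ →
        W (own E p h) (own E (1 - p) h)) := by
  classical
  have hbias : ∀ i : ℕ, i % 2 = p → bias b₀ b₁ i = bias b₀ b₁ p := by
    intro i hi
    unfold bias
    rw [hi, Nat.mod_eq_of_lt hp]
  have hbias' : ∀ i : ℕ, i % 2 ≠ p → bias b₀ b₁ i = bias b₀ b₁ (1 - p) := by
    intro i hi
    unfold bias
    have : i % 2 = (1 - p) % 2 := by omega
    rw [this]
  have hfree : ∀ h : List (Finset β), free E h = E \ (own E p h ∪ own E (1 - p) h) := by
    intro h
    rw [free_eq]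
    have : p = 0 ∨ p = 1 := by omega
    rcases this with rfl | rfl
    · rfl
    · rw [Finset.union_comm]
  have hdis : ∀ h : List (Finset β), Legal E b₀ b₁ h →
      Disjoint (own E p h) (own E (1 - p) h) := by
    intro h hL
    have : p = 0 ∨ p = 1 := by omega
    rcases this with rfl | rfl
    · exact own_disjoint E b₀ b₁ h hL
    · exact (own_disjoint E b₀ b₁ h hL).symm
  let Q : List (Finset β) → Finset β → Prop := fun h m => m ⊆ free E h ∧
    m.card = min (bias b₀ b₁ p) (free E h).card ∧
    ∀ b : Finset β, b ⊆ free E h \ m → b.card = min (bias b₀ b₁ (1 - p)) (free E h \ m).card →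
      Good (own E p h ∪ m) (own E (1 - p) h ∪ b)
  let σ : List (Finset β) → Finset β := fun h => if H : ∃ m, Q h m then H.choose else ∅
  have hσ1 : ∀ h, (∃ m, Q h m) → Q h (σ h) := by
    intro h h2
    have : σ h = h2.choose := dif_pos h2
    rw [this]
    exact h2.choose_spec
  have hQ : ∀ h, Legal E b₀ b₁ h → Good (own E p h) (own E (1 - p) h) → (free E h).Nonempty →
      ∃ m, Q h m := by
    intro h hL hG h3
    obtain ⟨m, hm1, hm2, hm3⟩ := hstep (own E p h) (own E (1 - p) h) (own_subset E p h)
      (own_subset E (1 - p) h) (hdis h hL) hG (by rw [← hfree]; exact h3)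
    have e : E \ (own E p h ∪ own E (1 - p) h ∪ m) = free E h \ m := by
      rw [hfree]
      ext x
      simp only [mem_sdiff, mem_union, not_or]
      tauto
    rw [e] at hm3
    rw [← hfree] at hm1 hm2
    exact ⟨m, hm1, hm2, hm3⟩
  have hinv : ∀ h : List (Finset β), Legal E b₀ b₁ h → Follows p σ h →
      (h.length % 2 = p → Good (own E p h) (own E (1 - p) h)) ∧
      (h.length % 2 ≠ p → ∀ b : Finset β, b ⊆ free E h →
        b.card = min (bias b₀ b₁ (1 - p)) (free E h).card →
          Good (own E p h) (own E (1 - p) h ∪ b)) := by
    intro h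
    induction h using List.reverseRecOn with
    | nil =>
      intro _ _
      have e0 : own E p ([] : List (Finset β)) = ∅ := by simp [own]
      have e1 : own E (1 - p) ([] : List (Finset β)) = ∅ := by simp [own]
      have e2 : free E ([] : List (Finset β)) = E := by simp [free]
      rw [e0, e1, e2]
      refine ⟨fun h1 => h0 (by simpa using h1.symm), fun h1 b hb hbc => ?_⟩
      have hp1 : p = 1 := by
        simp only [List.length_nil, Nat.zero_mod] at h1
        omega
      rw [Finset.empty_union]
      refine h0' hp1 b hb ?_
      rw [hbc, hp1]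
      simp [bias]
    | append_singleton h m ih =>
      intro hL hF
      obtain ⟨hL', hM⟩ := Legal_append E b₀ b₁ h m hL
      obtain ⟨hF', hmσ⟩ := Follows_append p σ h m hF
      obtain ⟨ih0, ih1⟩ := ih hL' hF'
      have hmE : m ⊆ E := hM.1.trans (free_subset E h)
      have hlen : (h ++ [m]).length = h.length + 1 := by simp
      by_cases h4 : h.length % 2 = p
      · refine ⟨fun h5 => by rw [hlen] at h5; omega, fun _ => ?_⟩
        have hG := ih0 h4
        have hms := hmσ h4
        rw [own_append_same E p h m h4 hmE, own_append_other E (1 - p) h m (by omega), free_append]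
        have hne : (free E h).Nonempty := hM.2.2.mono hM.1
        have hq := hσ1 h (hQ h hL' hG hne)
        rw [← hms] at hq
        exact hq.2.2
      · refine ⟨fun _ => ?_, fun h5 => by rw [hlen] at h5; omega⟩
        rw [own_append_other E p h m h4, own_append_same E (1 - p) h m (by omega) hmE]
        refine ih1 h4 m hM.1 ?_
        rw [← hbias' _ h4]
        exact hM.2.1
  refine ⟨σ, ?_, ?_⟩
  · intro h hL hF h2 hne
    have hG := (hinv h hL hF).1 h2
    have hq := hσ1 h (hQ h hL hG hne)
    refine ⟨hq.1, hq.2.1, ?_⟩
    rw [← Finset.card_pos, hq.2.1]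
    have := Finset.card_pos.2 hne
    omega
  · intro h hL hF hfr
    have hG : Good (own E p h) (own E (1 - p) h) := by
      by_cases h4 : h.length % 2 = p
      · exact (hinv h hL hF).1 h4
      · have := (hinv h hL hF).2 h4 ∅ (by simp) (by rw [hfr]; simp)
        simpa using this
    exact hend (own E p h) (own E (1 - p) h) (own_subset E p h) (own_subset E (1 - p) h)
      (hdis h hL) hG (by rw [← hfree]; exact hfr)

end Pool.Agent.W315.BGame
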